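import Pool.Agent.N874.PP.Lat

/-!
# The ring of integers of the cubic field with squarefree discriminant (part INT of project PP)
-/

set_option autoImplicit false
set_option linter.all false

open Polynomial IsDedekindDomain
open scoped Matrix
open scoped Classical

namespace Pool.Agent.N833.PP

open Pool.Agent.N874.PP

section cub

variable {k K L : Type} [Field k] [Field K] [Algebra k[X] K] [Field L] [Algebra K L]
  [Algebra k[X] L] [IsScalarTower k[X] K L] {a b : k[X]} {θ : L}

theorem cube (h : IsCub K a b θ) :
    θ ^ 3 = -(algebraMap K L (algebraMap k[X] K a) * θ) - algebraMap K L (algebraMap k[X] K b) := by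
  have h1 := h.root
  rw [IsScalarTower.algebraMap_apply k[X] K L a, IsScalarTower.algebraMap_apply k[X] K L b] at h1
  linear_combination h1

theorem repr_comb (h : IsCub K a b θ) (r s t : K) (i : Fin 3) :
    h.basis.repr (algebraMap K L r + algebraMap K L s * θ + algebraMap K L t * θ ^ 2) i =
      ![r, s, t] i := by
  have e : algebraMap K L r + algebraMap K L s * θ + algebraMap K L t * θ ^ 2 =
      r • h.basis 0 + s • h.basis 1 + t • h.basis 2 := by
    rw [h.basis_apply, h.basis_apply, h.basis_apply]
    simp [vec, Algebra.smul_def]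
  rw [e, map_add, map_add, map_smul, map_smul, map_smul]
  simp only [Module.Basis.repr_self, Finsupp.add_apply, Finsupp.smul_apply, smul_eq_mul]
  fin_cases i <;> simp [Finsupp.single_apply]

/-- the trace -/
theorem trace_comb (h : IsCub K a b θ) (r s t : K) :
    Algebra.trace K L (algebraMap K L r + algebraMap K L s * θ + algebraMap K L t * θ ^ 2) =
      3 * r - 2 * algebraMap k[X] K a * t := by
  rw [Algebra.trace_eq_matrix_trace h.basis, Matrix.trace, Fin.sum_univ_three]
  simp only [Matrix.diag_apply, Algebra.leftMulMatrix_eq_repr_mul, h.basis_apply]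
  set A := algebraMap k[X] K a
  set B := algebraMap k[X] K b
  have h3 := cube h
  have e0 : (algebraMap K L r + algebraMap K L s * θ + algebraMap K L t * θ ^ 2) * vec θ 0 =
      algebraMap K L r + algebraMap K L s * θ + algebraMap K L t * θ ^ 2 := by
    simp [vec]
  have e1 : (algebraMap K L r + algebraMap K L s * θ + algebraMap K L t * θ ^ 2) * vec θ 1 =
      algebraMap K L (-(t * B)) + algebraMap K L (r - t * A) * θ + algebraMap K L s * θ ^ 2 := by
    simp only [vec, Matrix.cons_val_one, Matrix.cons_val_zero, map_neg, map_sub, map_mul]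
    linear_combination algebraMap K L t * h3
  have e2 : (algebraMap K L r + algebraMap K L s * θ + algebraMap K L t * θ ^ 2) * vec θ 2 =
      algebraMap K L (-(s * B)) + algebraMap K L (-(s * A) - t * B) * θ +
        algebraMap K L (r - t * A) * θ ^ 2 := by
    simp only [vec, Matrix.cons_val, map_neg, map_sub, map_mul]
    linear_combination (algebraMap K L s + algebraMap K L t * θ) * h3
  rw [e0, e1, e2, repr_comb h, repr_comb h, repr_comb h]
  simp only [Matrix.cons_val, Matrix.cons_val_zero, Matrix.cons_val_one]
  ring

/-- the discriminant -/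
theorem discr_vec (h : IsCub K a b θ) :
    Algebra.discr K (vec θ) = - algebraMap k[X] K (dsc a b) := by
  set A := algebraMap k[X] K a with hA
  set B := algebraMap k[X] K b with hB
  have h3 := cube h
  have t0 : Algebra.trace K L 1 = 3 := by
    have := trace_comb h 1 0 0
    simpa using this
  have t1 : Algebra.trace K L θ = 0 := by
    have := trace_comb h 0 1 0
    simpa using this
  have t2 : Algebra.trace K L (θ ^ 2) = -2 * A := by
    have := trace_comb h 0 0 1
    simpa using this
  have t3 : Algebra.trace K L (θ ^ 3) = -3 * B := by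
    have := trace_comb h (-B) (-A) 0
    have e : algebraMap K L (-B) + algebraMap K L (-A) * θ + algebraMap K L 0 * θ ^ 2 = θ ^ 3 := by
      rw [h3]; simp only [map_neg, map_zero]; ring
    rw [e] at this
    rw [this]; ring
  have t4 : Algebra.trace K L (θ ^ 4) = 2 * A ^ 2 := by
    have := trace_comb h 0 (-B) (-A)
    have e : algebraMap K L 0 + algebraMap K L (-B) * θ + algebraMap K L (-A) * θ ^ 2 = θ ^ 4 := by
      simp only [map_neg, map_zero]
      linear_combination (-θ) * h3
    rw [e] at this
    rw [this]; ring
  rw [Algebra.discr_def, Matrix.det_fin_three]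
  simp only [Algebra.traceMatrix_apply, Algebra.traceForm_apply, vec, Matrix.cons_val,
    Matrix.cons_val_zero, Matrix.cons_val_one]
  have e1 : (1 : L) * 1 = 1 := one_mul 1
  have e2 : θ * θ = θ ^ 2 := by ring
  have e3 : θ * θ ^ 2 = θ ^ 3 := by ring
  have e4 : θ ^ 2 * θ = θ ^ 3 := by ring
  have e5 : θ ^ 2 * θ ^ 2 = θ ^ 4 := by ring
  rw [e1, e2, e3, e4, e5, one_mul, one_mul, mul_one, mul_one, t0, t1, t2, t3, t4]
  unfold dsc
  simp only [map_add, map_mul, map_pow, ← hA, ← hB, map_ofNat]
  ring

end cub

section main

variable {k K : Type} [Field k] [Field K] [Algebra k[X] K] [IsFractionRing k[X] K]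

theorem sqf_int {D : k[X]} (hD : Squarefree D) {t : K}
    (h : IsIntegral k[X] (t ^ 2 * algebraMap k[X] K D)) : ∃ c : k[X], algebraMap k[X] K c = t := by
  have hD0 : D ≠ 0 := hD.ne_zero
  have hD0' : algebraMap k[X] K D ≠ 0 := by
    rwa [Ne, IsFractionRing.to_map_eq_zero_iff (R := k[X])]
  have h1 : IsIntegral k[X] (t * algebraMap k[X] K D) := by
    refine IsIntegral.of_pow (n := 2) (by norm_num) ?_
    have : (t * algebraMap k[X] K D) ^ 2 = t ^ 2 * algebraMap k[X] K D * algebraMap k[X] K D := by
      ring
    rw [this]
    exact h.mul isIntegral_algebraMap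
  obtain ⟨m, hm⟩ := IsIntegrallyClosed.isIntegral_iff.1 h1
  obtain ⟨n, hn⟩ := IsIntegrallyClosed.isIntegral_iff.1 h
  have h2 : m ^ 2 = n * D := by
    apply IsFractionRing.injective k[X] K
    rw [map_pow, map_mul, hm, hn]
    ring
  have h3 : D ∣ m := (hD.dvd_pow_iff_dvd (n := 2) (by norm_num)).1 ⟨n, by rw [h2]; ring⟩
  obtain ⟨c, rfl⟩ := h3
  refine ⟨c, ?_⟩
  rw [map_mul, mul_comm] at hm
  exact mul_right_cancel₀ hD0' hm

end main

theorem int : S_INT := by
  intro k K L _ _ _ _ _ _ _ _ a b θ h6 h hsq x
  have hfin : Module.Finite K L := Module.Finite.of_basis h.basis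
  have hθ : IsIntegral k[X] θ := by
    refine ⟨X ^ 3 + C a * X + C b, ?_, ?_⟩
    · monicity!
    · simp [h.root]
  have hint : ∀ r : k[X], IsIntegral k[X] (algebraMap k[X] L r) := fun r => isIntegral_algebraMap
  constructor
  · intro hx
    obtain ⟨r, s, t, rfl⟩ := h.gen x
    -- the coefficient of θ ^ 2
    have ht : ∃ c : k[X], algebraMap k[X] K c = t := by
      apply sqf_int hsq
      have h1 : IsIntegral k[X] (Algebra.discr K (vec θ ᵥ*
          (!![1, 0, r; 0, 1, s; 0, 0, t] : Matrix (Fin 3) (Fin 3) K).map (algebraMap K L))) := by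
        apply Algebra.discr_isIntegral
        intro i
        fin_cases i
        · have : (vec θ ᵥ* (!![1, 0, r; 0, 1, s; 0, 0, t] : Matrix (Fin 3) (Fin 3) K).map
              (algebraMap K L)) 0 = 1 := by
            simp [Matrix.vecMul, dotProduct, Fin.sum_univ_three, vec]
          simp only [Fin.zero_eta]
          rw [this]
          exact isIntegral_one
        · have : (vec θ ᵥ* (!![1, 0, r; 0, 1, s; 0, 0, t] : Matrix (Fin 3) (Fin 3) K).map
              (algebraMap K L)) 1 = θ := by
            simp [Matrix.vecMul, dotProduct, Fin.sum_univ_three, vec]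
          simp only [Fin.mk_one]
          rw [this]
          exact hθ
        · have : (vec θ ᵥ* (!![1, 0, r; 0, 1, s; 0, 0, t] : Matrix (Fin 3) (Fin 3) K).map
              (algebraMap K L)) 2 =
              algebraMap K L r + algebraMap K L s * θ + algebraMap K L t * θ ^ 2 := by
            simp [Matrix.vecMul, dotProduct, Fin.sum_univ_three, vec]
            ring
          simp only [Fin.reduceFinMk]
          rw [this]
          exact hx
      rw [Algebra.discr_of_matrix_vecMul, discr_vec h, Matrix.det_fin_three] at h1
      simp at h1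
      exact h1
    obtain ⟨t', rfl⟩ := ht
    have hx' : IsIntegral k[X] (algebraMap K L r + algebraMap K L s * θ) := by
      have h1 := hx.sub ((hint t').mul (hθ.pow 2))
      rw [IsScalarTower.algebraMap_apply k[X] K L t', add_sub_cancel_right] at h1
      exact h1
    have hs : ∃ c : k[X], algebraMap k[X] K c = s := by
      apply sqf_int hsq
      have h1 : IsIntegral k[X] (Algebra.discr K (vec θ ᵥ*
          (!![1, r, 0; 0, s, 0; 0, 0, 1] : Matrix (Fin 3) (Fin 3) K).map (algebraMap K L))) := by
        apply Algebra.discr_isIntegral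
        intro i
        fin_cases i
        · have : (vec θ ᵥ* (!![1, r, 0; 0, s, 0; 0, 0, 1] : Matrix (Fin 3) (Fin 3) K).map
              (algebraMap K L)) 0 = 1 := by
            simp [Matrix.vecMul, dotProduct, Fin.sum_univ_three, vec]
          simp only [Fin.zero_eta]
          rw [this]
          exact isIntegral_one
        · have : (vec θ ᵥ* (!![1, r, 0; 0, s, 0; 0, 0, 1] : Matrix (Fin 3) (Fin 3) K).map
              (algebraMap K L)) 1 = algebraMap K L r + algebraMap K L s * θ := by
            simp [Matrix.vecMul, dotProduct, Fin.sum_univ_three, vec]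
            ring
          simp only [Fin.mk_one]
          rw [this]
          exact hx'
        · have : (vec θ ᵥ* (!![1, r, 0; 0, s, 0; 0, 0, 1] : Matrix (Fin 3) (Fin 3) K).map
              (algebraMap K L)) 2 = θ ^ 2 := by
            simp [Matrix.vecMul, dotProduct, Fin.sum_univ_three, vec]
          simp only [Fin.reduceFinMk]
          rw [this]
          exact hθ.pow 2
      rw [Algebra.discr_of_matrix_vecMul, discr_vec h, Matrix.det_fin_three] at h1
      simp at h1
      exact h1
    obtain ⟨s', rfl⟩ := hs
    have hr : ∃ c : k[X], algebraMap k[X] K c = r := by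
      have h1 := hx'.sub ((hint s').mul hθ)
      rw [IsScalarTower.algebraMap_apply k[X] K L s', add_sub_cancel_right] at h1
      have h2 : IsIntegral k[X] r :=
        (isIntegral_algebraMap_iff (algebraMap K L).injective).1 h1
      exact IsIntegrallyClosed.isIntegral_iff.1 h2
    obtain ⟨r', rfl⟩ := hr
    refine ⟨![r', s', t'], ?_⟩
    unfold Crd
    simp only [Matrix.cons_val, Matrix.cons_val_zero, Matrix.cons_val_one]
    rw [IsScalarTower.algebraMap_apply k[X] K L r', IsScalarTower.algebraMap_apply k[X] K L s',
      IsScalarTower.algebraMap_apply k[X] K L t']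
  · rintro ⟨v, rfl⟩
    exact ((hint _).add ((hint _).mul hθ)).add ((hint _).mul (hθ.pow 2))

end Pool.Agent.N833.PP
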